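import Mathlib

/-!
# Logarithmic functions of length `k` with large image

A logarithmic function of length `k` is determined by arbitrary values at the primes up to `k`.
For uniformly random values at the primes, two different squarefree numbers up to `k` have the same
image in `ZMod k` with probability `1 / k`.  So for some choice the squarefree numbers up to `k`,
of which there are at least `k / 4`, have few coincidences, and the image has at least `k / 5`
elements.  Hence `liminf M_k / k ≥ 1 / 5`, for all `k`, and the conjunction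
`liminf M_k / k = 0` and `liminf R_k / k = 0` is false.
-/

set_option autoImplicit false

open Finset Filter

namespace Pool.Agent.Results.MP_0b9f2e_nt.LiminfPositive

/-- `f` is a logarithmic function of length `k` (only its values on `{1, …, k}` matter):
`f (a b) = f a + f b` for all `a, b ≥ 1` with `a b ≤ k`. -/
def IsLogarithmic (k : ℕ) (f : ℕ → ZMod k) : Prop :=
  ∀ a b : ℕ, 1 ≤ a → 1 ≤ b → a * b ≤ k → f (a * b) = f a + f b

/-- `M_k`: the maximum of `|f([k])|` over all logarithmic functions `f` of length `k`. -/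
noncomputable def M (k : ℕ) : ℕ :=
  sSup {m : ℕ | ∃ f : ℕ → ZMod k, IsLogarithmic k f ∧ m = (f '' Set.Icc 1 k).ncard}

/-- `R_k`: the largest `R` with `1 ≤ R ≤ k` such that some logarithmic function of length `k` is
injective on the `R`-smooth elements of `{1, …, k}`. -/
noncomputable def R (k : ℕ) : ℕ :=
  sSup {r : ℕ | 1 ≤ r ∧ r ≤ k ∧ ∃ f : ℕ → ZMod k, IsLogarithmic k f ∧
    Set.InjOn f {n : ℕ | 1 ≤ n ∧ n ≤ k ∧ ∀ p : ℕ, p.Prime → p ∣ n → p ≤ r}}

/-- the logarithmic function with prescribed values at the primes -/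
noncomputable def F {k : ℕ} (g : Fin (k + 1) → ZMod k) (n : ℕ) : ZMod k :=
  ∑ i : Fin (k + 1), n.factorization i • g i

lemma F_log {k : ℕ} (g : Fin (k + 1) → ZMod k) : IsLogarithmic k (F g) := by
  intro a b ha hb _
  unfold F
  rw [← Finset.sum_add_distrib]
  refine Finset.sum_congr rfl fun i _ => ?_
  rw [Nat.factorization_mul (by omega) (by omega), Finsupp.add_apply, add_smul]

/-- the squarefree numbers up to `k` -/
def T (k : ℕ) : Finset ℕ := (Finset.Icc 1 k).filter Squarefree

lemma sum_inv_sq_le (k : ℕ) : ∑ d ∈ Finset.Icc 2 k, (1 : ℝ) / (d : ℝ) ^ 2 ≤ 3 / 4 := by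
  have key : ∀ k : ℕ, 2 ≤ k → ∑ d ∈ Finset.Icc 2 k, (1 : ℝ) / (d : ℝ) ^ 2 ≤ 3 / 4 - 1 / k := by
    intro k hk
    induction k, hk using Nat.le_induction with
    | base => norm_num
    | succ n hn ih =>
      rw [Finset.sum_Icc_succ_top (by omega)]
      have hn' : (2 : ℝ) ≤ n := by exact_mod_cast hn
      have h2 : (1 : ℝ) / ((n + 1 : ℕ) : ℝ) ^ 2 ≤ 1 / n - 1 / ((n + 1 : ℕ) : ℝ) := by
        push_cast
        rw [div_sub_div _ _ (by positivity) (by positivity), div_le_div_iff₀ (by positivity)
          (by positivity)]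
        nlinarith
      linarith
  rcases Nat.lt_or_ge k 2 with h | h
  · rw [Finset.Icc_eq_empty (by omega)]
    norm_num
  · have := key k h
    have h2 : (0 : ℝ) < 1 / k := by
      have : (0 : ℝ) < k := by exact_mod_cast (by omega : 0 < k)
      positivity
    linarith

lemma card_T (k : ℕ) : (k : ℝ) / 4 ≤ ((T k).card : ℝ) := by
  classical
  have h1 : (Finset.Icc 1 k) ⊆ T k ∪ (Finset.Icc 2 k).biUnion
      (fun d => (Finset.Icc 1 k).filter (fun n => d ^ 2 ∣ n)) := by
    intro n hn
    rw [Finset.mem_union]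
    by_cases hs : Squarefree n
    · left
      exact Finset.mem_filter.2 ⟨hn, hs⟩
    · right
      rw [Nat.squarefree_iff_prime_squarefree] at hs
      push Not at hs
      obtain ⟨p, hp, hpn⟩ := hs
      have hn' := Finset.mem_Icc.1 hn
      have hle : p * p ≤ n := Nat.le_of_dvd (by omega) hpn
      have hp2 := hp.two_le
      rw [Finset.mem_biUnion]
      refine ⟨p, Finset.mem_Icc.2 ⟨hp2, by nlinarith⟩, Finset.mem_filter.2 ⟨hn, ?_⟩⟩
      rw [pow_two]
      exact hpn
  have h2 := (Finset.card_le_card h1).trans (Finset.card_union_le _ _)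
  have h3 : ((Finset.Icc 2 k).biUnion
      (fun d => (Finset.Icc 1 k).filter (fun n => d ^ 2 ∣ n))).card ≤
      ∑ d ∈ Finset.Icc 2 k, k / d ^ 2 := by
    refine Finset.card_biUnion_le.trans (Finset.sum_le_sum fun d hd => ?_)
    rw [← Nat.Ioc_filter_dvd_card_eq_div k (d ^ 2)]
    apply le_of_eq
    congr 1
  have h4 : ((∑ d ∈ Finset.Icc 2 k, k / d ^ 2 : ℕ) : ℝ) ≤ k * (3 / 4) := by
    push_cast
    calc (∑ d ∈ Finset.Icc 2 k, ((k / d ^ 2 : ℕ) : ℝ))
        ≤ ∑ d ∈ Finset.Icc 2 k, (k : ℝ) * (1 / (d : ℝ) ^ 2) := by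
          refine Finset.sum_le_sum fun d _ => ?_
          refine Nat.cast_div_le.trans (le_of_eq ?_)
          push_cast
          ring
      _ = k * ∑ d ∈ Finset.Icc 2 k, (1 / (d : ℝ) ^ 2) := by rw [Finset.mul_sum]
      _ ≤ k * (3 / 4) := by
          exact mul_le_mul_of_nonneg_left (sum_inv_sq_le k) (by positivity)
  have h5 : (Finset.Icc 1 k).card = k := by simp
  rw [h5] at h2
  have h6 : (k : ℝ) ≤ (T k).card + ((∑ d ∈ Finset.Icc 2 k, k / d ^ 2 : ℕ) : ℝ) := by
    exact_mod_cast h2.trans (Nat.add_le_add_left h3 _)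
  linarith

/-- two different squarefree numbers collide for at most `k ^ k` of the `k ^ (k + 1)` choices -/
lemma collisions {k : ℕ} [NeZero k] {n m : ℕ} (hn : n ∈ T k) (hm : m ∈ T k) (hnm : n ≠ m) :
    (Finset.univ.filter fun g : Fin (k + 1) → ZMod k => F g n = F g m).card ≤ k ^ k := by
  classical
  obtain ⟨hn1, hn2⟩ := Finset.mem_filter.1 hn
  obtain ⟨hm1, hm2⟩ := Finset.mem_filter.1 hm
  rw [Finset.mem_Icc] at hn1 hm1
  -- a prime dividing exactly one of the two numbers
  obtain ⟨p, hp⟩ : ∃ p, n.factorization p ≠ m.factorization p := by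
    by_contra hcon
    push Not at hcon
    exact hnm (Nat.eq_of_factorization_eq (by omega) (by omega) hcon)
  have hn3 := (Nat.squarefree_iff_factorization_le_one (by omega : n ≠ 0)).1 hn2 p
  have hm3 := (Nat.squarefree_iff_factorization_le_one (by omega : m ≠ 0)).1 hm2 p
  have hpk : p < k + 1 := by
    by_contra hcon
    have h1 : n.factorization p = 0 := Nat.factorization_eq_zero_of_lt (by omega)
    have h2 : m.factorization p = 0 := Nat.factorization_eq_zero_of_lt (by omega)
    exact hp (h1.trans h2.symm)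
  set q : Fin (k + 1) := ⟨p, hpk⟩ with hq
  have key : Function.Injective (fun g : {g : Fin (k + 1) → ZMod k // F g n = F g m} =>
      fun i : {i : Fin (k + 1) // i ≠ q} => g.1 i.1) := by
    rintro ⟨g, hg⟩ ⟨g', hg'⟩ h
    have hoff : ∀ i, i ≠ q → g i = g' i := fun i hi => congrFun h ⟨i, hi⟩
    have hsub : ∀ a : ℕ, F g a - F g' a = a.factorization p • (g q - g' q) := by
      intro a
      unfold F
      rw [← Finset.sum_sub_distrib, Finset.sum_eq_single q]
      · rw [smul_sub]
      · intro i _ hi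
        rw [hoff i hi, sub_self]
      · intro h
        exact absurd (Finset.mem_univ q) h
    have h1 := hsub n
    have h2 := hsub m
    rw [hg, hg'] at h1
    rw [h1] at h2
    have h3 : g q - g' q = 0 := by
      rcases Nat.lt_or_gt_of_ne hp with h4 | h4
      · have e1 : n.factorization p = 0 := by omega
        have e2 : m.factorization p = 1 := by omega
        rw [e1, e2, zero_smul, one_smul] at h2
        exact h2.symm
      · have e1 : n.factorization p = 1 := by omega
        have e2 : m.factorization p = 0 := by omega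
        rw [e1, e2, zero_smul, one_smul] at h2
        exact h2
    apply Subtype.ext
    funext i
    by_cases hi : i = q
    · rw [hi]
      exact sub_eq_zero.1 h3
    · exact hoff i hi
  have h1 := Fintype.card_le_of_injective _ key
  rw [Fintype.card_subtype] at h1
  refine h1.trans (le_of_eq ?_)
  rw [Fintype.card_fun, ZMod.card, Fintype.card_subtype_compl, Fintype.card_fin,
    Fintype.card_subtype_eq]
  simp

/-- for every `k ≥ 1` some logarithmic function of length `k` has at least `k / 5` values -/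
lemma exists_large (k : ℕ) (hk : 1 ≤ k) : ∃ f : ℕ → ZMod k, IsLogarithmic k f ∧
    (k : ℝ) / 5 ≤ ((f '' Set.Icc 1 k).ncard : ℝ) := by
  classical
  have : NeZero k := ⟨by omega⟩
  have hk0 : (0 : ℝ) < k := by exact_mod_cast hk
  set t : ℕ := (T k).card with ht
  -- the total number of coincidences
  have htot : ∑ g : Fin (k + 1) → ZMod k,
      ((T k ×ˢ T k).filter fun x => F g x.1 = F g x.2).card ≤
      ∑ _g : Fin (k + 1) → ZMod k, (0 : ℕ) + (t * k ^ (k + 1) + t * t * k ^ k) := by
    have e1 : ∀ g : Fin (k + 1) → ZMod k,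
        ((T k ×ˢ T k).filter fun x => F g x.1 = F g x.2).card =
        ∑ x ∈ T k ×ˢ T k, if F g x.1 = F g x.2 then 1 else 0 := by
      intro g
      rw [Finset.card_filter]
    rw [Finset.sum_congr rfl fun g _ => e1 g, Finset.sum_comm, Finset.sum_const_zero, zero_add]
    have e2 : ∀ x ∈ T k ×ˢ T k, (∑ g : Fin (k + 1) → ZMod k, if F g x.1 = F g x.2 then 1 else 0) ≤
        (if x.1 = x.2 then k ^ (k + 1) else 0) + k ^ k := by
      intro x hx
      rw [Finset.mem_product] at hx
      rw [← Finset.card_filter]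
      by_cases h : x.1 = x.2
      · rw [if_pos h]
        refine (Finset.card_filter_le _ _).trans ?_
        rw [Finset.card_univ, Fintype.card_fun, ZMod.card, Fintype.card_fin]
        omega
      · rw [if_neg h, zero_add]
        exact collisions hx.1 hx.2 h
    refine (Finset.sum_le_sum e2).trans ?_
    rw [Finset.sum_add_distrib, Finset.sum_const, smul_eq_mul, Finset.card_product]
    apply Nat.add_le_add_right
    rw [Finset.sum_product]
    have e3 : ∀ a ∈ T k, (∑ b ∈ T k, if (a, b).1 = (a, b).2 then k ^ (k + 1) else 0) =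
        k ^ (k + 1) := by
      intro a ha
      simp [ha]
    rw [Finset.sum_congr rfl e3, Finset.sum_const, smul_eq_mul]
  rw [Finset.sum_const_zero, zero_add] at htot
  obtain ⟨g, hg⟩ : ∃ g : Fin (k + 1) → ZMod k,
      k * ((T k ×ˢ T k).filter fun x => F g x.1 = F g x.2).card ≤ t * k + t * t := by
    by_contra hcon
    push Not at hcon
    have h1 : ∑ _g : Fin (k + 1) → ZMod k, (t * k + t * t) <
        ∑ g : Fin (k + 1) → ZMod k, k * ((T k ×ˢ T k).filter fun x => F g x.1 = F g x.2).card :=
      Finset.sum_lt_sum_of_nonempty Finset.univ_nonempty fun g _ => hcon g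
    rw [Finset.sum_const, Finset.card_univ, Fintype.card_fun, ZMod.card, Fintype.card_fin,
      ← Finset.mul_sum, smul_eq_mul] at h1
    have h2 := Nat.mul_le_mul_left k htot
    have e : k * (t * k ^ (k + 1) + t * t * k ^ k) = k ^ (k + 1) * (t * k + t * t) := by ring
    omega
  refine ⟨F g, F_log g, ?_⟩
  set E := ((T k ×ˢ T k).filter fun x => F g x.1 = F g x.2).card with hE
  -- Cauchy-Schwarz
  have hCS : t ^ 2 ≤ ((T k).image (F g)).card * E := by
    have h1 : t = ∑ v ∈ (T k).image (F g), ((T k).filter fun n => F g n = v).card :=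
      Finset.card_eq_sum_card_image (F g) (T k)
    have h2 : E = ∑ v ∈ (T k).image (F g), ((T k).filter fun n => F g n = v).card ^ 2 := by
      rw [hE]
      rw [Finset.card_eq_sum_card_fiberwise (f := fun x => F g x.1) (t := (T k).image (F g))]
      · refine Finset.sum_congr rfl fun v _ => ?_
        rw [pow_two, ← Finset.card_product]
        congr 1
        ext ⟨a, b⟩
        simp only [Finset.mem_filter, Finset.mem_product]
        constructor
        · rintro ⟨⟨⟨h1, h2⟩, h3⟩, h4⟩
          exact ⟨⟨h1, h4⟩, h2, h3.symm.trans h4⟩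
        · rintro ⟨⟨h1, h2⟩, h3, h4⟩
          exact ⟨⟨⟨h1, h3⟩, h2.trans h4.symm⟩, h2⟩
      · intro x hx
        have hx' := Finset.mem_filter.1 (Finset.mem_coe.1 hx)
        exact Finset.mem_coe.2 (Finset.mem_image_of_mem _ (Finset.mem_product.1 hx'.1).1)
    rw [h1, h2]
    exact sq_sum_le_card_mul_sum_sq
  have himg : ((T k).image (F g)).card ≤ ((F g) '' Set.Icc 1 k).ncard := by
    rw [← Set.ncard_coe_finset, Finset.coe_image]
    apply Set.ncard_le_ncard
    · apply Set.image_mono
      intro n hn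
      have := (Finset.mem_filter.1 (Finset.mem_coe.1 hn)).1
      exact Finset.mem_Icc.1 this
    · exact (Set.finite_Icc 1 k).image _
  have ht1 : (k : ℝ) / 4 ≤ t := card_T k
  have ht0 : (0 : ℝ) < t := by linarith
  have hg' : (k : ℝ) * E ≤ t * k + t * t := by exact_mod_cast hg
  have hCS' : (t : ℝ) ^ 2 ≤ (((T k).image (F g)).card : ℝ) * E := by exact_mod_cast hCS
  have himg' : (((T k).image (F g)).card : ℝ) ≤ (((F g) '' Set.Icc 1 k).ncard : ℝ) := by
    exact_mod_cast himg
  set I : ℝ := (((T k).image (F g)).card : ℝ) with hI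
  have hI0 : 0 ≤ I := by positivity
  have h1 : (k : ℝ) * t ≤ I * (k + t) := by
    have h2 : (k : ℝ) * t ^ 2 ≤ I * (t * k + t * t) := by
      calc (k : ℝ) * t ^ 2 ≤ k * (I * E) := mul_le_mul_of_nonneg_left hCS' hk0.le
        _ = I * (k * E) := by ring
        _ ≤ I * (t * k + t * t) := mul_le_mul_of_nonneg_left hg' hI0
    have h3 : t * ((k : ℝ) * t) ≤ t * (I * (k + t)) := by nlinarith
    exact le_of_mul_le_mul_left h3 ht0
  have h2 : (k : ℝ) / 5 ≤ I := by
    by_contra hcon
    push Not at hcon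
    have : I * (k + t) < k / 5 * (k + t) := by
      apply mul_lt_mul_of_pos_right hcon
      linarith
    nlinarith
  linarith

lemma ncard_le (k : ℕ) (f : ℕ → ZMod k) : (f '' Set.Icc 1 k).ncard ≤ k := by
  refine (Set.ncard_image_le (Set.finite_Icc 1 k)).trans ?_
  rw [Set.ncard_eq_toFinset_card']
  simp

lemma M_bdd (k : ℕ) :
    BddAbove {m : ℕ | ∃ f : ℕ → ZMod k, IsLogarithmic k f ∧ m = (f '' Set.Icc 1 k).ncard} := by
  refine ⟨k, ?_⟩
  rintro m ⟨f, -, rfl⟩
  exact ncard_le k f

/-- `M_k ≥ k / 5` for every `k ≥ 1` -/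
lemma M_ge (k : ℕ) (hk : 1 ≤ k) : (k : ℝ) / 5 ≤ (M k : ℝ) := by
  obtain ⟨f, hf, h⟩ := exists_large k hk
  have h1 : (f '' Set.Icc 1 k).ncard ≤ M k := le_csSup (M_bdd k) ⟨f, hf, rfl⟩
  have h2 : ((f '' Set.Icc 1 k).ncard : ℝ) ≤ M k := by exact_mod_cast h1
  linarith

lemma M_le (k : ℕ) : M k ≤ k := by
  apply csSup_le
  · exact ⟨_, fun _ => 0, fun _ _ _ _ _ => by simp, rfl⟩
  · rintro m ⟨f, -, rfl⟩
    exact ncard_le k f

/-- For every `k ≥ 1` one has `M_k ≥ k / 5`; so `liminf M_k / k ≥ 1 / 5 > 0`, and the conjunction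
`liminf M_k / k = 0` and `liminf R_k / k = 0` is false. -/
theorem result :
    (∀ k : ℕ, 1 ≤ k → (k : ℝ) / 5 ≤ (M k : ℝ)) ∧
    (1 / 5 : ℝ) ≤ liminf (fun k : ℕ => (M k : ℝ) / (k : ℝ)) atTop ∧
    ¬ (liminf (fun k : ℕ => (M k : ℝ) / (k : ℝ)) atTop = 0 ∧
        liminf (fun k : ℕ => (R k : ℝ) / (k : ℝ)) atTop = 0) := by
  have h : (1 / 5 : ℝ) ≤ liminf (fun k : ℕ => (M k : ℝ) / (k : ℝ)) atTop := by
    apply le_liminf_of_le
    · apply IsBoundedUnder.isCoboundedUnder_ge
      refine ⟨1, ?_⟩
      rw [eventually_map]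
      filter_upwards [eventually_ge_atTop 1] with k hk
      have hk0 : (0 : ℝ) < k := by exact_mod_cast hk
      rw [div_le_one hk0]
      exact_mod_cast M_le k
    · filter_upwards [eventually_ge_atTop 1] with k hk
      have hk0 : (0 : ℝ) < k := by exact_mod_cast hk
      rw [le_div_iff₀ hk0]
      have := M_ge k hk
      linarith
  refine ⟨M_ge, h, ?_⟩
  rintro ⟨h1, -⟩
  rw [h1] at h
  norm_num at h

end Pool.Agent.Results.MP_0b9f2e_nt.LiminfPositive
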